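import Pool.Agent.TH852.SP.Stmts

/-!
The tangent plane section of a very general surface (job VS-PT).
-/

set_option autoImplicit false

namespace Pool.Agent.TH873.VS

open MvPolynomial Pool.Agent.TH852.SP

noncomputable def ek (e k : ℕ) : Fin (3 + 1) →₀ ℕ := Finsupp.single 0 (e - k) + Finsupp.single 3 k

theorem ek0 (e k : ℕ) : ek e k 0 = e - k := by simp [ek]
theorem ek1 (e k : ℕ) : ek e k 1 = 0 := by simp [ek]
theorem ek2 (e k : ℕ) : ek e k 2 = 0 := by simp [ek]
theorem ek3 (e k : ℕ) : ek e k 3 = k := by simp [ek]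

theorem deg4 (α : Fin (3 + 1) →₀ ℕ) : Finsupp.degree α = α 0 + α 1 + α 2 + α 3 := by
  rw [Finsupp.degree_eq_sum, Fin.sum_univ_four]

theorem deg3 (α : Fin 3 →₀ ℕ) : Finsupp.degree α = α 0 + α 1 + α 2 := by
  rw [Finsupp.degree_eq_sum, Fin.sum_univ_three]

theorem ext4 {α β : Fin (3 + 1) →₀ ℕ} (h0 : α 0 = β 0) (h1 : α 1 = β 1) (h2 : α 2 = β 2)
    (h3 : α 3 = β 3) : α = β := by
  ext i
  fin_cases i
  · exact h0
  · exact h1
  · exact h2
  · exact h3

theorem ext3 {α β : Fin 3 →₀ ℕ} (h0 : α 0 = β 0) (h1 : α 1 = β 1) (h2 : α 2 = β 2) :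
    α = β := by
  ext i
  fin_cases i
  · exact h0
  · exact h1
  · exact h2

theorem eval_pt {G : R4} {e : ℕ} (hG : G.IsHomogeneous e) (t : ℂ) :
    eval (pt t) G = ∑ k ∈ Finset.range (e + 1), coeff (ek e k) G * t ^ k := by
  classical
  rw [eval_eq']
  have hprod : ∀ α : Fin (3 + 1) →₀ ℕ,
      ∏ i, pt t i ^ α i = 0 ^ (α 1) * 0 ^ (α 2) * t ^ (α 3) := by
    intro α
    rw [Fin.prod_univ_four]
    simp [pt]
  have hinj : ∀ k ∈ Finset.range (e + 1), ∀ l ∈ Finset.range (e + 1), ek e k = ek e l → k = l := by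
    intro k _ l _ h
    have := DFunLike.congr_fun h 3
    simpa [ek3] using this
  have h1 : ∑ α ∈ G.support, coeff α G * ∏ i, pt t i ^ α i =
      ∑ α ∈ (Finset.range (e + 1)).image (ek e), coeff α G * ∏ i, pt t i ^ α i := by
    apply Finset.sum_congr_of_eq_on_inter
    · intro α hα hn
      have hd : Finsupp.degree α = e := by
        by_contra hne
        exact (mem_support_iff.1 hα) (hG.coeff_eq_zero hne)
      rw [deg4] at hd
      rw [hprod]
      by_cases ha : α 1 = 0
      · by_cases hb : α 2 = 0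
        · exfalso
          apply hn
          refine Finset.mem_image.2 ⟨α 3, Finset.mem_range.2 (by omega), ?_⟩
          apply ext4
          · rw [ek0]; omega
          · rw [ek1, ha]
          · rw [ek2, hb]
          · rw [ek3]
        · rw [zero_pow hb]; ring
      · rw [zero_pow ha]; ring
    · intro α _ hn
      rw [notMem_support_iff.1 hn, zero_mul]
    · intro α _ _
      rfl
  rw [h1, Finset.sum_image hinj]
  refine Finset.sum_congr rfl fun k _ => ?_
  rw [hprod, ek1, ek2, ek3]
  simp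

theorem eval_100 {B : R3} {e : ℕ} (hB : B.IsHomogeneous e) :
    eval ![1, 0, 0] B = coeff (Finsupp.single 0 e) B := by
  classical
  rw [eval_eq', Finset.sum_eq_single (Finsupp.single 0 e)]
  · rw [Fin.prod_univ_three]
    simp
  · intro α hα hne
    have hd : Finsupp.degree α = e := by
      by_contra h
      exact (mem_support_iff.1 hα) (hB.coeff_eq_zero h)
    rw [deg3] at hd
    rw [Fin.prod_univ_three]
    by_cases ha : α 1 = 0
    · by_cases hb : α 2 = 0
      · exfalso
        apply hne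
        apply ext3
        · simp; omega
        · simp [ha]
        · simp [hb]
      · simp [hb]
    · simp [ha]
  · intro h
    rw [notMem_support_iff.1 h, zero_mul]

theorem chain (g : Fin (3 + 1) → R3) (F : R4) (i : Fin 3) :
    pderiv i (aeval g F) = ∑ j, aeval g (pderiv j F) * pderiv i (g j) := by
  classical
  induction F using MvPolynomial.induction_on with
  | C a => simp
  | add p q hp hq =>
    rw [map_add, map_add, hp, hq, ← Finset.sum_add_distrib]
    refine Finset.sum_congr rfl fun j _ => ?_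
    rw [map_add, map_add]
    ring
  | mul_X p n hp =>
    rw [map_mul, aeval_X, Derivation.leibniz, hp]
    simp only [Derivation.leibniz, smul_eq_mul, map_add, map_mul, aeval_X, add_mul,
      Finset.sum_add_distrib, pderiv_X, Pi.single_apply]
    congr 1
    · rw [Finset.sum_eq_single n]
      · simp
      · intro j _ hj
        simp
        intro h
        exact absurd h.symm hj
      · simp
    · rw [Finset.mul_sum]
      refine Finset.sum_congr rfl fun j _ => by ring

theorem eval_res (t a b : ℂ) (P : R4) : eval ![1, 0, 0] (res t a b P) = eval (pt t) P := by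
  have h : ((aeval ![(1 : ℂ), 0, 0] : R3 →ₐ[ℂ] ℂ).comp (res t a b)) = (aeval (pt t) : R4 →ₐ[ℂ] ℂ) := by
    apply MvPolynomial.algHom_ext
    intro i
    fin_cases i <;> simp [res, pt]
  have := DFunLike.congr_fun h P
  simpa [aeval_eq_eval] using this

theorem res_hom {d : ℕ} {F : R4} (hF : F.IsHomogeneous d) (t a b : ℂ) :
    (res t a b F).IsHomogeneous d := by
  have := hF.aeval ![X 0, X 1, X 2, C t * X 0 + C a * X 1 + C b * X 2] (n := 1) (τ := Fin 3)
    (by
      intro i
      have hC : ∀ (c : ℂ) (j : Fin 3), (C c * X j : R3).IsHomogeneous 1 := fun c j => by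
        simpa using (isHomogeneous_C (Fin 3) c).mul (isHomogeneous_X ℂ j)
      fin_cases i
      · exact isHomogeneous_X _ _
      · exact isHomogeneous_X _ _
      · exact isHomogeneous_X _ _
      · exact ((hC t 0).add (hC a 1)).add (hC b 2))
  rw [one_mul] at this
  exact this

theorem coeff_res_top {d : ℕ} {F : R4} (hF : F.IsHomogeneous d) (t a b : ℂ) :
    coeff (Finsupp.single 0 d) (res t a b F) = eval (pt t) F := by
  rw [← eval_100 (res_hom hF t a b), eval_res]

theorem coeff_res_one {d : ℕ} {F : R4} (hF : F.IsHomogeneous d) (t a b : ℂ) :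
    coeff (Finsupp.single 0 (d - 1) + Finsupp.single 1 1) (res t a b F) =
      eval (pt t) (pderiv 1 F) + a * eval (pt t) (pderiv 3 F) := by
  have h1 := eval_100 (B := pderiv 1 (res t a b F)) (res_hom hF t a b).pderiv
  rw [coeff_pderiv] at h1
  simp only [Finsupp.single_apply] at h1
  have h2 : eval ![1, 0, 0] (pderiv 1 (res t a b F)) =
      eval (pt t) (pderiv 1 F) + a * eval (pt t) (pderiv 3 F) := by
    have hc := chain ![X 0, X 1, X 2, C t * X 0 + C a * X 1 + C b * X 2] F 1
    change pderiv 1 (res t a b F) = _ at hc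
    rw [hc, map_sum, Fin.sum_univ_four]
    change eval ![1, 0, 0] (res t a b (pderiv 0 F) * _) + eval ![1, 0, 0] (res t a b (pderiv 1 F) * _)
      + eval ![1, 0, 0] (res t a b (pderiv 2 F) * _) + eval ![1, 0, 0] (res t a b (pderiv 3 F) * _) = _
    rw [map_mul, map_mul, map_mul, map_mul, eval_res, eval_res, eval_res, eval_res]
    simp [pderiv_X]
    try ring
  rw [h2] at h1
  rw [h1]
  simp

theorem coeff_res_two {d : ℕ} {F : R4} (hF : F.IsHomogeneous d) (t a b : ℂ) :
    coeff (Finsupp.single 0 (d - 1) + Finsupp.single 2 1) (res t a b F) =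
      eval (pt t) (pderiv 2 F) + b * eval (pt t) (pderiv 3 F) := by
  have h1 := eval_100 (B := pderiv 2 (res t a b F)) (res_hom hF t a b).pderiv
  rw [coeff_pderiv] at h1
  simp only [Finsupp.single_apply] at h1
  have h2 : eval ![1, 0, 0] (pderiv 2 (res t a b F)) =
      eval (pt t) (pderiv 2 F) + b * eval (pt t) (pderiv 3 F) := by
    have hc := chain ![X 0, X 1, X 2, C t * X 0 + C a * X 1 + C b * X 2] F 2
    change pderiv 2 (res t a b F) = _ at hc
    rw [hc, map_sum, Fin.sum_univ_four]
    change eval ![1, 0, 0] (res t a b (pderiv 0 F) * _) + eval ![1, 0, 0] (res t a b (pderiv 1 F) * _)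
      + eval ![1, 0, 0] (res t a b (pderiv 2 F) * _) + eval ![1, 0, 0] (res t a b (pderiv 3 F) * _) = _
    rw [map_mul, map_mul, map_mul, map_mul, eval_res, eval_res, eval_res, eval_res]
    simp [pderiv_X]
    try ring
  rw [h2] at h1
  rw [h1]
  simp


/-- the linear forms substituted -/
noncomputable def gg (t a b : ℂ) : Fin (3 + 1) → R3 :=
  ![X 0, X 1, X 2, C t * X 0 + C a * X 1 + C b * X 2]

noncomputable def ex (α : Fin 3 →₀ ℕ) : Fin (3 + 1) →₀ ℕ :=
  Finsupp.single 0 (α 0) + Finsupp.single 1 (α 1) + Finsupp.single 2 (α 2)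

noncomputable def pr (α : Fin (3 + 1) →₀ ℕ) : Fin 3 →₀ ℕ :=
  Finsupp.single 0 (α 0) + Finsupp.single 1 (α 1) + Finsupp.single 2 (α 2)

theorem ex0 (α : Fin 3 →₀ ℕ) : ex α 0 = α 0 := by simp [ex]
theorem ex1 (α : Fin 3 →₀ ℕ) : ex α 1 = α 1 := by simp [ex]
theorem ex2 (α : Fin 3 →₀ ℕ) : ex α 2 = α 2 := by simp [ex]
theorem ex3 (α : Fin 3 →₀ ℕ) : ex α 3 = 0 := by simp [ex]
theorem pr0 (α : Fin (3 + 1) →₀ ℕ) : pr α 0 = α 0 := by simp [pr]
theorem pr1 (α : Fin (3 + 1) →₀ ℕ) : pr α 1 = α 1 := by simp [pr]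
theorem pr2 (α : Fin (3 + 1) →₀ ℕ) : pr α 2 = α 2 := by simp [pr]

theorem pr_ex (α : Fin 3 →₀ ℕ) : pr (ex α) = α := by
  apply ext3
  · rw [pr0, ex0]
  · rw [pr1, ex1]
  · rw [pr2, ex2]

theorem ex_pr {α : Fin (3 + 1) →₀ ℕ} (h : α 3 = 0) : ex (pr α) = α := by
  apply ext4
  · rw [ex0, pr0]
  · rw [ex1, pr1]
  · rw [ex2, pr2]
  · rw [ex3, h]

theorem coeff_res_split (F : R4) (t a b : ℂ) (α : Fin 3 →₀ ℕ) :
    coeff α (res t a b F) = coeff (ex α) F +
      ∑ β ∈ F.support.filter (fun β => ¬ β 3 = 0), coeff β F * coeff α (∏ i, gg t a b i ^ β i) := by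
  classical
  have h1 : res t a b F = ∑ β ∈ F.support, C (coeff β F) * ∏ i, gg t a b i ^ β i := by
    change aeval (gg t a b) F = _
    rw [aeval_def, eval₂_eq']
    rfl
  rw [h1, coeff_sum, ← Finset.sum_filter_add_sum_filter_not F.support (fun β => β 3 = 0)]
  congr 1
  · rw [Finset.sum_eq_single (ex α)]
    · rw [coeff_C_mul, Fin.prod_univ_four, ex0, ex1, ex2, ex3]
      have : (gg t a b 0 ^ α 0 * gg t a b 1 ^ α 1 * gg t a b 2 ^ α 2 * gg t a b 3 ^ 0 : R3) =
          monomial α 1 := by
        simp only [gg, pow_zero, mul_one]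
        simp only [Matrix.cons_val_zero, Matrix.cons_val_one, Matrix.cons_val]
        have hα : Finsupp.single 0 (α 0) + Finsupp.single 1 (α 1) + Finsupp.single 2 (α 2) = α := by
          apply ext3 <;> simp
        rw [X_pow_eq_monomial, X_pow_eq_monomial, X_pow_eq_monomial, monomial_mul, monomial_mul,
          hα, one_mul, one_mul]
      rw [this, coeff_monomial]
      simp
    · intro β hβ hne
      have hb3 : β 3 = 0 := (Finset.mem_filter.1 hβ).2
      rw [coeff_C_mul, Fin.prod_univ_four, hb3]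
      have : (gg t a b 0 ^ β 0 * gg t a b 1 ^ β 1 * gg t a b 2 ^ β 2 * gg t a b 3 ^ 0 : R3) =
          monomial (pr β) 1 := by
        simp only [gg, pow_zero, mul_one]
        simp only [Matrix.cons_val_zero, Matrix.cons_val_one, Matrix.cons_val]
        rw [X_pow_eq_monomial, X_pow_eq_monomial, X_pow_eq_monomial, monomial_mul, monomial_mul]
        congr 1
        simp
      rw [this, coeff_monomial, if_neg, mul_zero]
      intro h
      apply hne
      rw [← h, ex_pr hb3]
    · intro h
      have : coeff (ex α) F = 0 := by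
        by_contra hc
        exact h (Finset.mem_filter.2 ⟨mem_support_iff.2 hc, ex3 α⟩)
      rw [this]
      simp
  · refine Finset.sum_congr rfl fun β _ => ?_
    rw [coeff_C_mul]

def InK (K : IntermediateField ℚ ℂ) (Q : R3) : Prop := ∀ m, coeff m Q ∈ K

theorem InK.mul {K : IntermediateField ℚ ℂ} {P Q : R3} (hP : InK K P) (hQ : InK K Q) :
    InK K (P * Q) := by
  classical
  intro m
  rw [coeff_mul]
  exact sum_mem fun x _ => mul_mem (hP _) (hQ _)

theorem InK.add {K : IntermediateField ℚ ℂ} {P Q : R3} (hP : InK K P) (hQ : InK K Q) :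
    InK K (P + Q) := by
  intro m
  rw [coeff_add]
  exact add_mem (hP _) (hQ _)

theorem InK.C {K : IntermediateField ℚ ℂ} {c : ℂ} (hc : c ∈ K) : InK K (C c) := by
  classical
  intro m
  rw [coeff_C]
  split_ifs
  · exact hc
  · exact zero_mem _

theorem InK.one {K : IntermediateField ℚ ℂ} : InK K 1 := by
  rw [← C_1]
  exact InK.C (one_mem _)

theorem InK.X {K : IntermediateField ℚ ℂ} (i : Fin 3) : InK K (X i) := by
  classical
  intro m
  rw [coeff_X]
  split_ifs
  · exact one_mem _
  · exact zero_mem _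

theorem InK.pow {K : IntermediateField ℚ ℂ} {P : R3} (hP : InK K P) (n : ℕ) : InK K (P ^ n) := by
  induction n with
  | zero => rw [pow_zero]; exact InK.one
  | succ n ih => rw [pow_succ]; exact ih.mul hP

theorem InK.gg {K : IntermediateField ℚ ℂ} {t a b : ℂ} (ht : t ∈ K) (ha : a ∈ K) (hb : b ∈ K)
    (i : Fin (3 + 1)) : InK K (gg t a b i) := by
  fin_cases i
  · exact InK.X 0
  · exact InK.X 1
  · exact InK.X 2
  · exact (((InK.C ht).mul (InK.X 0)).add ((InK.C ha).mul (InK.X 1))).add
      ((InK.C hb).mul (InK.X 2))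

theorem InK.prod {K : IntermediateField ℚ ℂ} {t a b : ℂ} (ht : t ∈ K) (ha : a ∈ K) (hb : b ∈ K)
    (β : Fin (3 + 1) →₀ ℕ) : InK K (∏ i, VS.gg t a b i ^ β i) := by
  rw [Fin.prod_univ_four]
  exact ((((InK.gg ht ha hb 0).pow _).mul ((InK.gg ht ha hb 1).pow _)).mul
    ((InK.gg ht ha hb 2).pow _)).mul ((InK.gg ht ha hb 3).pow _)

/-- index type -/
abbrev II (d : ℕ) : Type := {α : Fin (3 + 1) →₀ ℕ // Finsupp.degree α = d}

theorem fin_II (d : ℕ) : Finite (II d) := by
  have hle : ∀ (α : II d) (i : Fin (3 + 1)), α.1 i < d + 1 := by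
    intro α i
    have h := α.2
    rw [deg4] at h
    have : i = 0 ∨ i = 1 ∨ i = 2 ∨ i = 3 := by fin_cases i <;> simp
    rcases this with rfl | rfl | rfl | rfl <;> omega
  refine Finite.of_injective (fun (α : II d) (i : Fin (3 + 1)) => (⟨α.1 i, hle α i⟩ : Fin (d + 1))) ?_
  intro α β h
  apply Subtype.ext
  ext i
  have := congrFun h i
  simpa using this

theorem deg_ek {d k : ℕ} (h : k ≤ d) : Finsupp.degree (ek d k) = d := by
  rw [deg4, ek0, ek1, ek2, ek3]
  omega

theorem exists_t {d : ℕ} {F : R4} (hd : 3 ≤ d) (hF : F.IsHomogeneous d)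
    (hc : coeff (ek d d) F ≠ 0) : ∃ t : ℂ, eval (pt t) F = 0 := by
  set p : Polynomial ℂ :=
    ∑ k ∈ Finset.range (d + 1), Polynomial.C (coeff (ek d k) F) * Polynomial.X ^ k with hp
  have hco : p.coeff d = coeff (ek d d) F := by
    rw [hp, Polynomial.finsetSum_coeff, Finset.sum_eq_single d]
    · simp
    · intro k _ hk
      rw [Polynomial.coeff_C_mul, Polynomial.coeff_X_pow, if_neg (Ne.symm hk), mul_zero]
    · intro h
      exact absurd (Finset.mem_range.2 (Nat.lt_succ_self d)) h
  have hdeg : p.degree ≠ 0 := by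
    intro h0
    apply hc
    rw [← hco]
    apply Polynomial.coeff_eq_zero_of_degree_lt
    rw [h0]
    exact_mod_cast (by omega : 0 < d)
  obtain ⟨t, ht⟩ := IsAlgClosed.exists_root p hdeg
  refine ⟨t, ?_⟩
  rw [eval_pt hF]
  rw [Polynomial.IsRoot.def, hp, Polynomial.eval_finsetSum] at ht
  simpa using ht

theorem der_ne (h : S_TR) {d : ℕ} {F : R4} (hd : 3 ≤ d) (hF : F.IsHomogeneous d)
    (hind : AlgebraicIndependent ℚ (fun α : II d => coeff α.1 F)) {t : ℂ}
    (ht : eval (pt t) F = 0) : eval (pt t) (pderiv 3 F) ≠ 0 := by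
  classical
  intro h0
  have := fin_II d
  let _ : Fintype (II d) := Fintype.ofFinite _
  set κ : Type := {i : II d // i.1 ≠ ek d 0} with hκ
  let _ : Fintype κ := Fintype.ofFinite _
  set y : κ → ℂ := fun j => coeff j.1.1 F with hy
  set K := IntermediateField.adjoin ℚ (Set.range y) with hK
  have hmem : ∀ k : ℕ, coeff (ek d (k + 1)) F ∈ K := by
    intro k
    by_cases hk : Finsupp.degree (ek d (k + 1)) = d
    · apply IntermediateField.subset_adjoin
      refine ⟨⟨⟨ek d (k + 1), hk⟩, ?_⟩, rfl⟩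
      intro he
      have := DFunLike.congr_fun he 3
      rw [ek3, ek3] at this
      omega
    · rw [hF.coeff_eq_zero hk]
      exact zero_mem _
  have hmem' : ∀ k : ℕ, ((k : ℂ) + 1) * coeff (ek d (k + 1)) F ∈ K := by
    intro k
    refine mul_mem (add_mem ?_ (one_mem _)) (hmem k)
    exact natCast_mem K k
  have hcd : coeff (ek d d) F ≠ 0 := hind.ne_zero ⟨ek d d, deg_ek le_rfl⟩
  have htK : IsAlgebraic K t := by
    refine ⟨∑ k ∈ Finset.range d, Polynomial.C (⟨_, hmem' k⟩ : K) * Polynomial.X ^ k, ?_, ?_⟩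
    · intro hz
      have hco := congrArg (fun q => Polynomial.coeff q (d - 1)) hz
      simp only [Polynomial.coeff_zero] at hco
      rw [Polynomial.finsetSum_coeff, Finset.sum_eq_single (d - 1)] at hco
      · rw [Polynomial.coeff_C_mul, Polynomial.coeff_X_pow, if_pos rfl, mul_one] at hco
        have h2 := congrArg (fun x : K => (x : ℂ)) hco
        simp only [ZeroMemClass.coe_zero] at h2
        rcases mul_eq_zero.1 h2 with h3 | h3
        · have : ((d - 1 : ℕ) : ℂ) + 1 = ((d - 1 + 1 : ℕ) : ℂ) := by push_cast; ring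
          rw [this] at h3
          exact absurd (Nat.cast_eq_zero.1 h3) (by omega)
        · rw [Nat.sub_add_cancel (by omega : 1 ≤ d)] at h3
          exact hcd h3
      · intro k _ hk
        rw [Polynomial.coeff_C_mul, Polynomial.coeff_X_pow, if_neg (Ne.symm hk), mul_zero]
      · intro hn
        exact absurd (Finset.mem_range.2 (by omega)) hn
    · have hp := eval_pt hF.pderiv t (G := pderiv 3 F)
      rw [h0] at hp
      rw [map_sum]
      have h4 : d - 1 + 1 = d := by omega
      rw [h4] at hp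
      refine Eq.trans ?_ hp.symm
      refine Finset.sum_congr rfl fun k hk => ?_
      have hkd := Finset.mem_range.1 hk
      rw [map_mul, Polynomial.aeval_C, map_pow, Polynomial.aeval_X, coeff_pderiv, ek3]
      have he : ek (d - 1) k + Finsupp.single 3 1 = ek d (k + 1) := by
        apply ext4
        · rw [Finsupp.add_apply, ek0, ek0]; simp; omega
        · rw [Finsupp.add_apply, ek1, ek1]; simp
        · rw [Finsupp.add_apply, ek2, ek2]; simp
        · rw [Finsupp.add_apply, ek3, ek3]; simp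
      rw [he]
      change (((k : ℂ) + 1) * coeff (ek d (k + 1)) F) * t ^ k = _
      ring
  have hc0 : IsAlgebraic K (coeff (ek d 0) F) := by
    have hs := ht
    rw [eval_pt hF, Finset.sum_range_succ', pow_zero, mul_one] at hs
    have : coeff (ek d 0) F = -∑ k ∈ Finset.range d, coeff (ek d (k + 1)) F * t ^ (k + 1) :=
      eq_neg_of_add_eq_zero_right hs
    rw [this, ← mem_algebraicClosure_iff]
    refine neg_mem (sum_mem fun k _ => mul_mem ?_ (pow_mem ?_ _))
    · rw [mem_algebraicClosure_iff]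
      exact isAlgebraic_algebraMap (⟨_, hmem k⟩ : K)
    · rw [mem_algebraicClosure_iff]
      exact htK
  have hall : ∀ i : II d, IsAlgebraic K (coeff i.1 F) := by
    intro i
    by_cases hi : i.1 = ek d 0
    · rw [hi]; exact hc0
    · exact isAlgebraic_algebraMap
        (⟨_, IntermediateField.subset_adjoin ℚ (Set.range y) ⟨⟨i, hi⟩, rfl⟩⟩ : K)
  have hcard := (h (II d) κ _ y hind hall).1
  have hlt : Fintype.card κ < Fintype.card (II d) :=
    Fintype.card_subtype_lt (x := (⟨ek d 0, deg_ek (Nat.zero_le _)⟩ : II d)) (by simp)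
  omega


open Classical in
/-- the new family -/
noncomputable def GG (d : ℕ) (F : R4) (B : R3) (t a b : ℂ) (α : II d) : ℂ :=
  if α.1 3 = 0 then
    (if α.1 0 + 2 ≤ d then coeff (pr α.1) B
      else if α.1 0 = d then t else if α.1 1 = 1 then a else b)
  else coeff α.1 F

theorem t_PT (h : S_TR) : S_PT := by
  classical
  intro d F hd hVG
  obtain ⟨hF, hind⟩ := hVG
  have hind' : AlgebraicIndependent ℚ (fun α : II d => coeff α.1 F) := hind
  have hcd : coeff (ek d d) F ≠ 0 := hind'.ne_zero ⟨ek d d, deg_ek le_rfl⟩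
  obtain ⟨t, ht⟩ := exists_t hd hF hcd
  have h3 := der_ne h hd hF hind' ht
  set D3 := eval (pt t) (pderiv 3 F) with hD3
  set a : ℂ := -eval (pt t) (pderiv 1 F) / D3 with ha
  set b : ℂ := -eval (pt t) (pderiv 2 F) / D3 with hb
  refine ⟨t, a, b, ht, h3, ?_⟩
  set B := res t a b F with hB
  have hBh : B.IsHomogeneous d := res_hom hF t a b
  have hzero : ∀ α : Fin 3 →₀ ℕ, d < α 0 + 2 → coeff α B = 0 := by
    intro α hα
    by_cases hdeg : Finsupp.degree α = d
    · rw [deg3] at hdeg
      by_cases h0 : α 0 = d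
      · have : α = Finsupp.single 0 d := by
          apply ext3
          · simp [h0]
          · simp; omega
          · simp; omega
        rw [this, hB, coeff_res_top hF, ht]
      · by_cases h1 : α 1 = 1
        · have : α = Finsupp.single 0 (d - 1) + Finsupp.single 1 1 := by
            apply ext3
            · simp; omega
            · simp [h1]
            · simp; omega
          rw [this, hB, coeff_res_one hF, ← hD3, ha]
          field_simp
          ring
        · have : α = Finsupp.single 0 (d - 1) + Finsupp.single 2 1 := by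
            apply ext3
            · simp; omega
            · simp; omega
            · simp; omega
          rw [this, hB, coeff_res_two hF, ← hD3, hb]
          field_simp
          ring
    · exact hBh.coeff_eq_zero hdeg
  have := fin_II d
  let _ : Fintype (II d) := Fintype.ofFinite _
  set G := GG d F B t a b with hG
  set K := IntermediateField.adjoin ℚ (Set.range G) with hK
  have hsub : ∀ i, G i ∈ K := fun i => IntermediateField.subset_adjoin ℚ (Set.range G) ⟨i, rfl⟩
  have htK : t ∈ K := by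
    have h1 := hsub ⟨ek d 0, deg_ek (Nat.zero_le _)⟩
    have h2 : G ⟨ek d 0, deg_ek (Nat.zero_le _)⟩ = t := by
      rw [hG, GG]
      simp only [ek3, ek0, ek1]
      rw [if_pos trivial, if_neg (by omega), if_pos (by omega)]
    rwa [h2] at h1
  have haK : a ∈ K := by
    have hdg : Finsupp.degree (Finsupp.single 0 (d - 1) + Finsupp.single 1 1 :
        Fin (3 + 1) →₀ ℕ) = d := by
      rw [deg4]; simp; omega
    have h1 := hsub ⟨_, hdg⟩
    have h2 : G ⟨_, hdg⟩ = a := by
      rw [hG, GG]
      have e3 : (Finsupp.single 0 (d - 1) + Finsupp.single 1 1 : Fin (3 + 1) →₀ ℕ) 3 = 0 := by simp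
      have e0 : (Finsupp.single 0 (d - 1) + Finsupp.single 1 1 : Fin (3 + 1) →₀ ℕ) 0 = d - 1 := by
        simp
      have e1 : (Finsupp.single 0 (d - 1) + Finsupp.single 1 1 : Fin (3 + 1) →₀ ℕ) 1 = 1 := by simp
      simp only [e3, e0, e1]
      rw [if_pos trivial, if_neg (by omega), if_neg (by omega), if_pos trivial]
    rwa [h2] at h1
  have hbK : b ∈ K := by
    have hdg : Finsupp.degree (Finsupp.single 0 (d - 1) + Finsupp.single 2 1 :
        Fin (3 + 1) →₀ ℕ) = d := by
      rw [deg4]; simp; omega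
    have h1 := hsub ⟨_, hdg⟩
    have h2 : G ⟨_, hdg⟩ = b := by
      rw [hG, GG]
      have e3 : (Finsupp.single 0 (d - 1) + Finsupp.single 2 1 : Fin (3 + 1) →₀ ℕ) 3 = 0 := by simp
      have e0 : (Finsupp.single 0 (d - 1) + Finsupp.single 2 1 : Fin (3 + 1) →₀ ℕ) 0 = d - 1 := by
        simp
      have e1 : (Finsupp.single 0 (d - 1) + Finsupp.single 2 1 : Fin (3 + 1) →₀ ℕ) 1 = 0 := by simp
      simp only [e3, e0, e1]
      rw [if_pos trivial, if_neg (by omega), if_neg (by omega), if_neg (by omega)]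
    rwa [h2] at h1
  have hFK : ∀ β : Fin (3 + 1) →₀ ℕ, β 3 ≠ 0 → coeff β F ∈ K := by
    intro β hβ
    by_cases hdeg : Finsupp.degree β = d
    · have h1 := hsub ⟨β, hdeg⟩
      have h2 : G ⟨β, hdeg⟩ = coeff β F := by
        rw [hG, GG]
        simp only
        rw [if_neg hβ]
      rwa [h2] at h1
    · rw [hF.coeff_eq_zero hdeg]
      exact zero_mem _
  have hdegex : ∀ α : Fin 3 →₀ ℕ, Finsupp.degree α = d → Finsupp.degree (ex α) = d := by
    intro α hα
    rw [deg3] at hα
    rw [deg4, ex0, ex1, ex2, ex3]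
    omega
  have hGex : ∀ (α : Fin 3 →₀ ℕ) (hα : Finsupp.degree α = d), α 0 + 2 ≤ d →
      G ⟨ex α, hdegex α hα⟩ = coeff α B := by
    intro α hα h2
    rw [hG, GG]
    simp only [ex3, ex0, pr_ex]
    rw [if_pos trivial, if_pos h2]
  have hBK : ∀ α : Fin 3 →₀ ℕ, coeff α B ∈ K := by
    intro α
    by_cases hdeg : Finsupp.degree α = d
    · by_cases h2 : α 0 + 2 ≤ d
      · rw [← hGex α hdeg h2]
        exact hsub _
      · rw [hzero α (by omega)]
        exact zero_mem _
    · rw [hBh.coeff_eq_zero hdeg]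
      exact zero_mem _
  have hxK : ∀ i : II d, coeff i.1 F ∈ K := by
    intro i
    by_cases hi : i.1 3 = 0
    · have hs := coeff_res_split F t a b (pr i.1)
      rw [ex_pr hi] at hs
      rw [eq_sub_of_add_eq hs.symm]
      refine sub_mem (hBK _) (sum_mem fun β hβ => mul_mem (hFK β (Finset.mem_filter.1 hβ).2) ?_)
      exact InK.prod htK haK hbK β _
    · exact hFK _ hi
  have hGind : AlgebraicIndependent ℚ G :=
    (h (II d) (II d) _ G hind' (fun i => isAlgebraic_algebraMap (⟨_, hxK i⟩ : K))).2 rfl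
  refine ⟨hBh, hzero, ?_⟩
  have hj := hGind.comp (fun α : {α : Fin 3 →₀ ℕ // Finsupp.degree α = d ∧ α 0 + 2 ≤ d} =>
    (⟨ex α.1, hdegex α.1 α.2.1⟩ : II d)) (by
      intro α β hαβ
      apply Subtype.ext
      have := congrArg (fun i : II d => pr i.1) hαβ
      simpa [pr_ex] using this)
  have he : (G ∘ fun α : {α : Fin 3 →₀ ℕ // Finsupp.degree α = d ∧ α 0 + 2 ≤ d} =>
      (⟨ex α.1, hdegex α.1 α.2.1⟩ : II d)) = fun α => coeff α.1 B := by
    funext α
    exact hGex α.1 α.2.1 α.2.2
  rw [he] at hj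
  exact hj

end Pool.Agent.TH873.VS

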